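import Mathlib

/-
Separation of two closed sets along a compact set, and small continua in a continuum.
-/

namespace Pool.Agent.MP_66cee2_co.H31

open Set Metric Topology

/-- two closed sets that no component meets both are separated by a clopen set. -/
theorem sep {Y : Type*} [TopologicalSpace Y] [T2Space Y] [CompactSpace Y] {A B : Set Y}
    (hA : IsClosed A) (hB : IsClosed B) (h : ∀ a ∈ A, ∀ b ∈ B, b ∉ connectedComponent a) :
    ∃ U : Set Y, IsClopen U ∧ A ⊆ U ∧ ∀ b ∈ B, b ∉ U := by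
  classical
  have one : ∀ a, ∃ U : Set Y, a ∈ A → IsClopen U ∧ a ∈ U ∧ ∀ b ∈ B, b ∉ U := by
    intro a
    by_cases ha : a ∈ A
    swap
    · exact ⟨∅, fun h' => absurd h' ha⟩
    obtain ⟨t, ht⟩ := hB.isCompact.elim_finite_subfamily_closed
      (fun s : {s : Set Y // IsClopen s ∧ a ∈ s} => (s : Set Y)) (fun s => s.2.1.isClosed) (by
        rw [← connectedComponent_eq_iInter_isClopen]
        exact eq_empty_of_forall_notMem fun b hb => h a ha b hb.1 hb.2)
    refine ⟨⋂ s ∈ t, (s : Set Y), fun _ => ⟨isClopen_biInter_finset fun s _ => s.2.1,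
      mem_iInter₂.2 fun s _ => s.2.2, fun b hb hb' => ?_⟩⟩
    have : b ∈ B ∩ ⋂ s ∈ t, (s : Set Y) := ⟨hb, hb'⟩
    rw [ht] at this
    exact this
  choose U hU using one
  obtain ⟨t, ht, hc⟩ := hA.isCompact.elim_nhds_subcover U
    fun a ha => (hU a ha).1.isOpen.mem_nhds (hU a ha).2.1
  refine ⟨⋃ a ∈ t, U a, isClopen_biUnion_finset fun a ha => (hU a (ht a ha)).1, hc,
    fun b hb hb' => ?_⟩
  obtain ⟨a, ha, hb2⟩ := mem_iUnion₂.1 hb'
  exact (hU a (ht a ha)).2.2 b hb hb2

/-- a function without zero on `Z` that separates `A` and `B`. -/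
theorem cut {X : Type*} [MetricSpace X] (Z A B : Set X) (hZ : IsCompact Z) (hA : IsClosed A)
    (hB : IsClosed B) (hAB : Disjoint A B)
    (h : ∀ S ⊆ Z, IsPreconnected S → (S ∩ A).Nonempty → (S ∩ B).Nonempty → False) :
    ∃ g : X → ℝ, Continuous g ∧ (∀ x ∈ Z, g x ≠ 0) ∧ (∀ x ∈ A, 0 < g x) ∧ ∀ x ∈ B, g x < 0 := by
  haveI : CompactSpace Z := isCompact_iff_compactSpace.1 hZ
  obtain ⟨U, hU, h1, h2⟩ := sep (Y := Z) (A := Subtype.val ⁻¹' A) (B := Subtype.val ⁻¹' B)
    (hA.preimage continuous_subtype_val) (hB.preimage continuous_subtype_val)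
    fun a ha b hb hab => h (Subtype.val '' connectedComponent a)
      (by rintro _ ⟨y, -, rfl⟩; exact y.2)
      (isPreconnected_connectedComponent.image _ continuous_subtype_val.continuousOn)
      ⟨a, ⟨a, mem_connectedComponent, rfl⟩, ha⟩ ⟨b, ⟨b, hab, rfl⟩, hb⟩
  have c1 : IsClosed (Subtype.val '' U ∪ A) :=
    (hU.isClosed.isCompact.image continuous_subtype_val).isClosed.union hA
  have c2 : IsClosed (Subtype.val '' Uᶜ ∪ B) :=
    (hU.compl.isClosed.isCompact.image continuous_subtype_val).isClosed.union hB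
  have hd : Disjoint (Subtype.val '' Uᶜ ∪ B) (Subtype.val '' U ∪ A) := by
    rw [Set.disjoint_left]
    rintro x (⟨y, hy, rfl⟩ | hx) (⟨y', hy', e⟩ | hx')
    · exact hy (Subtype.ext e ▸ hy')
    · exact hy (h1 hx')
    · exact h2 y' (show (y' : X) ∈ B from e ▸ hx) hy'
    · exact Set.disjoint_left.1 hAB hx' hx
  obtain ⟨f, f0, f1, -⟩ := exists_continuous_zero_one_of_isClosed c2 c1 hd
  refine ⟨fun x => f x - 1 / 2, f.continuous.sub continuous_const, fun x hx => ?_,
    fun x hx => ?_, fun x hx => ?_⟩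
  · by_cases hu : (⟨x, hx⟩ : Z) ∈ U
    · have : f x = 1 := f1 (Or.inl ⟨_, hu, rfl⟩)
      show f x - 1 / 2 ≠ 0
      rw [this]; norm_num
    · have : f x = 0 := f0 (Or.inl ⟨_, hu, rfl⟩)
      show f x - 1 / 2 ≠ 0
      rw [this]; norm_num
  · have : f x = 1 := f1 (Or.inr hx)
    show 0 < f x - 1 / 2
    rw [this]; norm_num
  · have : f x = 0 := f0 (Or.inr hx)
    show f x - 1 / 2 < 0
    rw [this]; norm_num

/-- a continuum contains a small continuum through each of its points. -/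
theorem bump {X : Type*} [MetricSpace X] (K U : Set X) (p q : X) (hK : IsCompact K)
    (hc : IsPreconnected K) (hp : p ∈ K) (hq : q ∈ K) (hqp : q ≠ p) (hU : IsOpen U)
    (hpU : p ∈ U) : ∃ S ⊆ K ∩ U, IsPreconnected S ∧ p ∈ S ∧ ∃ q' ∈ S, q' ≠ p := by
  obtain ⟨ε, hε, hb⟩ := Metric.isOpen_iff.1 hU p hpU
  have hd : 0 < dist q p := dist_pos.2 hqp
  obtain ⟨r, r0, r1, r2⟩ : ∃ r : ℝ, 0 < r ∧ r < ε ∧ r < dist q p :=
    ⟨min ε (dist q p) / 2, by positivity, by
      have := min_le_left ε (dist q p)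
      linarith, by
      have := min_le_right ε (dist q p)
      linarith⟩
  by_contra hn
  obtain ⟨g, g0, g1, g2, g3⟩ := cut (K ∩ closedBall p r) {p} (sphere p r)
    (hK.inter_right isClosed_closedBall) isClosed_singleton isClosed_sphere
    (disjoint_singleton_left.2 (by simpa using r0.ne))
    fun S hS hSc ⟨a, ha1, ha2⟩ ⟨b, hb1, hb2⟩ => hn ⟨S,
      fun y hy => ⟨(hS hy).1, hb (closedBall_subset_ball r1 (hS hy).2)⟩, hSc,
      (show a = p from ha2) ▸ ha1, b, hb1, fun e => by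
        rw [e, mem_sphere, dist_self] at hb2
        exact r0.ne hb2⟩
  obtain ⟨x, -, ⟨x1, x2⟩, x3⟩ := hc (ball p r ∩ {x | 0 < g x}) ((closedBall p r)ᶜ ∪ {x | g x < 0})
    (isOpen_ball.inter (isOpen_lt continuous_const g0))
    (isClosed_closedBall.isOpen_compl.union (isOpen_lt g0 continuous_const))
    (fun x hx => by
      rcases lt_trichotomy (dist x p) r with h | h | h
      · rcases lt_or_gt_of_ne (g1 x ⟨hx, h.le⟩) with h' | h'
        · exact Or.inr (Or.inr h')
        · exact Or.inl ⟨h, h'⟩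
      · exact Or.inr (Or.inr (g3 x h))
      · exact Or.inr (Or.inl (not_le.2 h)))
    ⟨p, hp, mem_ball_self r0, g2 p rfl⟩ ⟨q, hq, Or.inl (not_le.2 r2)⟩
  rcases x3 with x3 | x3
  · exact x3 (ball_subset_closedBall x1)
  · exact lt_asymm (show 0 < g x from x2) (show g x < 0 from x3)

end Pool.Agent.MP_66cee2_co.H31
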