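import Pool.Agent.MP_66cee2_co.TR.Spec
import Pool.Agent.MP_66cee2_co.H31.Cut

/-
The rows on cutting and on small continua, from the separation lemma.
-/

namespace Pool.Agent.MP_66cee2_co.H31

open Set Metric Pool.Agent.MP_66cee2_co.X

theorem sCut : TR.SCut := by
  intro d i C hC h
  have hc : Continuous fun x : E d => x i := by fun_prop
  obtain ⟨g, g0, g1, g2, g3⟩ := cut C {x : E d | x i = 0} {x : E d | x i = 2} hC
    (isClosed_eq hc continuous_const) (isClosed_eq hc continuous_const)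
    (Set.disjoint_left.2 fun x h0 h2 => by
      have e0 : x i = 0 := h0
      have e2 : x i = 2 := h2
      linarith)
    fun S hS hp ⟨a, a1, a2⟩ ⟨b, b1, b2⟩ => h S hS hp a a1 b b1 a2 b2
  exact ⟨g, ⟨g0, fun x hx => (g2 x hx).le, fun x hx => (g3 x hx).le⟩, g1⟩

theorem sBump : TR.SBump := by
  intro d C x y r hC hp hx hy hxy hr
  obtain ⟨S, s1, s2, s3, q, s4, s5⟩ :=
    bump C (ball x r) x y hC hp hx hy hxy.symm isOpen_ball (mem_ball_self hr)
  exact ⟨S, s1, s2, q, s4, x, s3, s5⟩

end Pool.Agent.MP_66cee2_co.H31
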