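import Pool.Agent.MP_66cee2_co.D.Drop
import Pool.Agent.MP_66cee2_co.D.Div
import Pool.Agent.MP_66cee2_co.D.Bi
import Pool.Agent.MP_66cee2_co.XI.Dat1

/-
Edges with one end of Euclidean type: the top coefficients along a line.
-/

namespace Pool.Agent.MP_66cee2_co.H31

open Polynomial Pool.Agent.MP_66cee2_co.X Pool.Agent.MP_66cee2_co.XI Pool.Agent.MP_66cee2_co.D

variable {d n : ℕ}

theorem tay_top (c : ℝ) {q : ℝ[X]} {m : ℕ} (h : q.natDegree ≤ m) :
    (taylor c q).coeff m = q.coeff m := by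
  rcases h.eq_or_lt with e | e
  · rw [← e, coeff_taylor_natDegree, leadingCoeff]
  · rw [coeff_eq_zero_of_natDegree_lt e,
      coeff_eq_zero_of_natDegree_lt (by rwa [natDegree_taylor])]

theorem tay_sub (c : ℝ) {q : ℝ[X]} {k : ℕ} (h : q.natDegree ≤ k + 1) :
    (taylor c q).coeff k = q.coeff k + (k + 1) * c * q.coeff (k + 1) := by
  have h1 : (hasseDeriv k q).natDegree < 2 :=
    lt_of_le_of_lt (natDegree_hasseDeriv_le q k) (by omega)
  rw [taylor_coeff, eval_eq_sum_range' h1, Finset.sum_range_succ, Finset.sum_range_one,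
    hasseDeriv_coeff, hasseDeriv_coeff, zero_add, Nat.choose_self, add_comm 1 k,
    Nat.choose_succ_self_right]
  push_cast
  ring

theorem tay_X (c : ℝ) {q : ℝ[X]} {l : ℕ} (h : q.natDegree ≤ l) :
    (X * taylor c q).coeff l = (X * q).coeff l + l * c * q.coeff l := by
  cases l with
  | zero => simp
  | succ l =>
    rw [coeff_X_mul, coeff_X_mul, tay_sub c h]
    push_cast
    ring

/-- the bracket of two shifted polynomials. -/
theorem bracket {a b : ℝ[X]} {k l : ℕ} (ha : a.natDegree ≤ k + 1) (hb : b.natDegree ≤ l) :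
    (taylor 1 a * taylor (-1) b - taylor (-1) a * taylor 1 b).natDegree ≤ k + l ∧
    (taylor 1 a * taylor (-1) b - taylor (-1) a * taylor 1 b).coeff (k + l) =
      2 * ((k : ℝ) + 1 - l) * a.coeff (k + 1) * b.coeff l := by
  have da : ∀ c : ℝ, (taylor c a).natDegree ≤ k + 1 := fun c => by rwa [natDegree_taylor]
  have db : ∀ c : ℝ, (taylor c b).natDegree ≤ l := fun c => by rwa [natDegree_taylor]
  constructor
  · rw [natDegree_le_iff_coeff_eq_zero]
    intro N hN
    rw [coeff_sub]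
    rcases (Nat.succ_le_of_lt hN).eq_or_lt with e | e
    · rw [← e, show (k + l).succ = k + 1 + l by omega,
        coeff_mul_add_eq_of_natDegree_le (da _) (db _),
        coeff_mul_add_eq_of_natDegree_le (da _) (db _), tay_top _ ha, tay_top _ ha, tay_top _ hb,
        tay_top _ hb, sub_self]
    · rw [coeff_eq_zero_of_natDegree_lt
          (lt_of_le_of_lt (natDegree_mul_le.trans (add_le_add (da _) (db _))) (by omega)),
        coeff_eq_zero_of_natDegree_lt
          (lt_of_le_of_lt (natDegree_mul_le.trans (add_le_add (da _) (db _))) (by omega)),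
        sub_self]
  · rw [coeff_sub, Dat1A.coeff_sub_top (da _) (db _), Dat1A.coeff_sub_top (da _) (db _),
      tay_top _ ha, tay_top _ ha, tay_top _ hb, tay_top _ hb, tay_X _ hb, tay_X _ hb,
      tay_sub _ ha, tay_sub _ ha]
    ring

/-- the identity on the line. -/
theorem line {Q Q' : Ix n → MP d} (h : EdgeId Q Q') (hQ : Q sI = 0) {w : E d} (hw : ‖w‖ = 1)
    {c : ℝ} (hc : c = 1 ∨ c = -1) :
    2 * ∑ i, ln (Q (Sum.inl i)) 0 w * taylor c (ln (Q' (Sum.inl i)) 0 w) +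
      ln (Q (Sum.inr false)) 0 w * taylor c (ln (Q' sI) 0 w) = 0 := by
  refine Polynomial.funext fun t => ?_
  have h1 := h (t • w) (c • w) (by rcases hc with rfl | rfl <;> simp [hw])
  rw [lz_eq, show t • w + c • w = (t + c) • w by module] at h1
  have e1 : evv Q (t • w) (Sum.inr true) = 0 := by simp [evv, hQ]
  rw [e1, zero_mul, add_zero] at h1
  simp only [eval_add, eval_finsetSum, eval_mul, taylor_eval, eval_ln_zero, eval_zero,
    eval_ofNat]
  exact h1

theorem eT {Q Q' : Ix n → MP d} (h : EdgeId Q Q') (hQ : Q sI = 0) {w : E d} (hw : ‖w‖ = 1)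
    {M M' m : ℕ} (h1 : ∀ i, DegL (Q (Sum.inl i)) w M) (h2 : ∀ i, DegL (Q' (Sum.inl i)) w M')
    (h3 : DegL (Q' sI) w m) (h4 : co (Q' sI) w m ≠ 0) (h5 : m < M') :
    ∑ i, co (Q (Sum.inl i)) w M * co (Q' (Sum.inl i)) w M' = 0 := by
  obtain ⟨k, rfl⟩ : ∃ k, M' = k + 1 := ⟨M' - 1, by omega⟩
  have l1 := line h hQ hw (Or.inl rfl)
  have l2 := line h hQ hw (Or.inr rfl)
  have h0 : ∑ i, ln (Q (Sum.inl i)) 0 w *
      (taylor 1 (ln (Q' (Sum.inl i)) 0 w) * taylor (-1) (ln (Q' sI) 0 w) -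
        taylor (-1) (ln (Q' (Sum.inl i)) 0 w) * taylor 1 (ln (Q' sI) 0 w)) = 0 := by
    have e : ∑ i, ln (Q (Sum.inl i)) 0 w *
        (taylor 1 (ln (Q' (Sum.inl i)) 0 w) * taylor (-1) (ln (Q' sI) 0 w) -
          taylor (-1) (ln (Q' (Sum.inl i)) 0 w) * taylor 1 (ln (Q' sI) 0 w)) =
        (∑ i, ln (Q (Sum.inl i)) 0 w * taylor 1 (ln (Q' (Sum.inl i)) 0 w)) *
            taylor (-1) (ln (Q' sI) 0 w) -
          (∑ i, ln (Q (Sum.inl i)) 0 w * taylor (-1) (ln (Q' (Sum.inl i)) 0 w)) *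
            taylor 1 (ln (Q' sI) 0 w) := by
      rw [Finset.sum_mul, Finset.sum_mul, ← Finset.sum_sub_distrib]
      exact Finset.sum_congr rfl fun i _ => by ring
    refine mul_left_cancel₀ (two_ne_zero (α := ℝ[X])) ?_
    rw [e]
    linear_combination taylor (-1) (ln (Q' sI) 0 w) * l1 - taylor 1 (ln (Q' sI) 0 w) * l2
  have h6 := congrArg (fun r : ℝ[X] => r.coeff (M + (k + m))) h0
  simp only [finsetSum_coeff, coeff_zero] at h6
  have h7 : (2 * ((k : ℝ) + 1 - m) * co (Q' sI) w m) *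
      ∑ i, co (Q (Sum.inl i)) w M * co (Q' (Sum.inl i)) w (k + 1) = 0 := by
    rw [← h6, Finset.mul_sum]
    refine Finset.sum_congr rfl fun i _ => ?_
    obtain ⟨b1, b2⟩ := bracket (degL_iff.1 (h2 i)) (degL_iff.1 h3)
    rw [coeff_mul_add_eq_of_natDegree_le (degL_iff.1 (h1 i)) b1, b2]
    simp only [co]
    ring
  have h8 : (m : ℝ) < k + 1 := by exact_mod_cast h5
  exact (mul_eq_zero.1 h7).resolve_left
    (mul_ne_zero (mul_ne_zero two_ne_zero (sub_pos.2 h8).ne') h4)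

theorem eBig {Q Q' : Ix n → MP d} (h : EdgeId Q Q') (hQ : Q sI = 0) {w : E d} (hw : ‖w‖ = 1)
    {M m : ℕ} (h1 : ∀ i, DegL (Q (Sum.inl i)) w M) (h2 : ∀ i, DegL (Q' (Sum.inl i)) w (m + 1))
    (h3 : DegL (Q' sI) w m) (h4 : co (Q' sI) w m ≠ 0) : DegL (Q (Sum.inr false)) w M := by
  have l1 := line h hQ hw (Or.inl rfl)
  have t0 := eT h hQ hw h1 h2 h3 h4 (Nat.lt_succ_self m)
  have dp : ∀ i, (taylor 1 (ln (Q' (Sum.inl i)) 0 w)).natDegree ≤ m + 1 := fun i => by
    rw [natDegree_taylor]; exact degL_iff.1 (h2 i)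
  have dq : (taylor 1 (ln (Q' sI) 0 w)).natDegree ≤ m := by
    rw [natDegree_taylor]; exact degL_iff.1 h3
  rw [degL_iff]
  by_contra hc
  obtain ⟨k, hk⟩ : ∃ k, (ln (Q (Sum.inr false)) 0 w).natDegree = M + 1 + k :=
    ⟨(ln (Q (Sum.inr false)) 0 w).natDegree - (M + 1), by omega⟩
  have hne : (ln (Q (Sum.inr false)) 0 w).coeff (M + 1 + k) ≠ 0 := by
    rw [← hk]
    exact leadingCoeff_ne_zero.2 fun e => by
      rw [e, natDegree_zero] at hk
      omega
  have h6 := congrArg (fun r : ℝ[X] => r.coeff (M + 1 + k + m)) l1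
  simp only [coeff_add, coeff_zero] at h6
  rw [coeff_mul_add_eq_of_natDegree_le hk.le dq, tay_top _ (degL_iff.1 h3), two_mul, coeff_add,
    finsetSum_coeff] at h6
  have h7 : ∑ i, (ln (Q (Sum.inl i)) 0 w * taylor 1 (ln (Q' (Sum.inl i)) 0 w)).coeff
      (M + 1 + k + m) = 0 := by
    cases k with
    | zero =>
      rw [← t0]
      refine Finset.sum_congr rfl fun i _ => ?_
      rw [show M + 1 + 0 + m = M + (m + 1) by omega,
        coeff_mul_add_eq_of_natDegree_le (degL_iff.1 (h1 i)) (dp i),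
        tay_top _ (degL_iff.1 (h2 i))]
      rfl
    | succ k =>
      exact Finset.sum_eq_zero fun i _ => coeff_eq_zero_of_natDegree_lt (lt_of_le_of_lt
        (natDegree_mul_le.trans (add_le_add (degL_iff.1 (h1 i)) (dp i))) (by omega))
  rw [h7, add_zero, zero_add] at h6
  exact mul_ne_zero hne h4 h6

/-- the vector without its last coordinate. -/
noncomputable def cutL (Q : Ix n → MP d) : Ix n → MP d
  | Sum.inl i => Q (Sum.inl i)
  | Sum.inr true => Q sI
  | Sum.inr false => 0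

/-- components of high total degree are orthogonal. -/
theorem high (hd : 1 ≤ d) {Q Q' : Ix n → MP d} (h : EdgeId Q Q') (hQ : Q sI = 0) {M m : ℕ}
    (h1 : ∀ a, (Q a).totalDegree ≤ M) (h2 : ∀ i, (Q' (Sum.inl i)).totalDegree ≤ m + 1)
    (h3 : (Q' sI).totalDegree ≤ m) (w w' : E d) (a b : ℕ) (hab : M + m ≤ a + b) :
    2 * ∑ i, co (Q (Sum.inl i)) w a * co (Q' (Sum.inl i)) w' b +
      co (Q (Sum.inr false)) w a * co (Q' sI) w' b = 0 := by
  have hQ' : Q (Sum.inr true) = 0 := hQ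
  have e : EdgeId Q (cutL Q') := fun z v hv => by
    have := h z v hv
    rw [lz_eq] at this ⊢
    simpa [evv, cutL, hQ', ev] using this
  have dg : ∀ c, (cutL Q' c).totalDegree ≤ m + 1 := by
    rintro (i | _ | _)
    · exact h2 i
    · simp [cutL]
    · exact h3.trans (Nat.le_succ m)
  have key : Ort (hc a Q) (hc b (cutL Q')) := by
    rcases sDrop sDiv sBi d n Q (cutL Q') M (m + 1) hd e h1 dg with k | ⟨N, A, -, k1, k2, k3⟩
    · exact k.2 a b
    · obtain ⟨j, hj⟩ := Function.ne_iff.1 k1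
      obtain ⟨a', b', k4, k5, k6, -⟩ := k3 j hj
      exact k2 a b (by omega)
  have := key w w'
  rw [lz_eq] at this
  simpa [evv, hc, cutL, hQ', co_eq_ev, ev] using this

theorem eG1 (hd : 1 ≤ d) {Q Q' : Ix n → MP d} (h : EdgeId Q Q') (hQ : Q sI = 0) (w : E d)
    {M m : ℕ} (h1 : ∀ a, (Q a).totalDegree ≤ M)
    (h2 : ∀ i, (Q' (Sum.inl i)).totalDegree ≤ m + 1) (h3 : (Q' sI).totalDegree ≤ m)
    (h4 : co (Q' sI) w m ≠ 0) :
    2 * ∑ i, co (Q (Sum.inl i)) w M * ofs (ln (Q' (Sum.inl i)) 0 w) (ln (Q' sI) 0 w) m +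
      co (Q (Sum.inr false)) w M = 0 := by
  have k1 := high hd h hQ h1 h2 h3 w w M m le_rfl
  have k2 := high hd h hQ h1 h2 h3 w w M (m + 1) (by omega)
  rw [degL_of_totalDegree h3 w (m + 1) (Nat.lt_succ_self m), mul_zero, add_zero] at k2
  have e : ∑ i, co (Q (Sum.inl i)) w M * ofs (ln (Q' (Sum.inl i)) 0 w) (ln (Q' sI) 0 w) m =
      (∑ i, co (Q (Sum.inl i)) w M * co (Q' (Sum.inl i)) w m) / co (Q' sI) w m -
        (∑ i, co (Q (Sum.inl i)) w M * co (Q' (Sum.inl i)) w (m + 1)) *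
          ((X * ln (Q' sI) 0 w).coeff m / co (Q' sI) w m / co (Q' sI) w m) := by
    rw [Finset.sum_div, Finset.sum_mul, ← Finset.sum_sub_distrib]
    refine Finset.sum_congr rfl fun i _ => ?_
    simp only [ofs, slp, co]
    ring
  have k3 : ∑ i, co (Q (Sum.inl i)) w M * co (Q' (Sum.inl i)) w (m + 1) = 0 := by linarith
  rw [e, k3, zero_mul, sub_zero]
  field_simp
  linarith

end Pool.Agent.MP_66cee2_co.H31
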