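import Pool.Agent.MP_66cee2_co.F.Spec
import Pool.Agent.MP_66cee2_co.H31.Edge

/-
The rows on edges with an end of Euclidean type.
-/

namespace Pool.Agent.MP_66cee2_co.H31

open Pool.Agent.MP_66cee2_co.X Pool.Agent.MP_66cee2_co.XI Pool.Agent.MP_66cee2_co.D

theorem ne_of_sq {j a : ℝ} (h : 1 ≤ j * a ^ 2) : a ≠ 0 := by
  rintro rfl
  norm_num at h

theorem sET : F.SET := fun _ _ _ _ _ _ _ _ hw h hQ h1 h3 h4 h2 h5 => eT h hQ hw h1 h2 h3 h4 h5

theorem sEG : F.SEG := by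
  intro d n Q Q' w j m M m' a hd hw h ⟨⟨_, g1, g2⟩, g3, g4, _⟩
  refine ⟨fun ⟨e1, _, e3⟩ => ?_, fun ⟨e1, ⟨_, e2, _⟩, e3, _, e4⟩ => ?_⟩
  · have k := eG1 hd h e1 w e3 g4 g3 (ne_of_sq g2)
    have e0 : co (Q (Sum.inr true)) w M = 0 := by
      have : Q (Sum.inr true) = 0 := e1
      rw [this, co_eq_ev]
      simp [ev]
    rw [lz_eq]
    simp only [F.rawE, F.valG, F.os, Sum.elim_inl, Sum.elim_inr, cond_true, cond_false, e0,
      zero_mul, add_zero, mul_one]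
    exact k
  · exact ne_of_sq e4 (eBig h e1 hw e2 (fun i => degL_of_totalDegree (g4 i) w) g1 (ne_of_sq g2)
      m e3)

end Pool.Agent.MP_66cee2_co.H31
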